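import Pool.Agent.H76.SW.T

/-!
Deletion of one unmarked bag `z` with at most one neighbour: the modules F1 and F2.
-/

namespace Pool.Agent.H90.SW

open Relation Pool.Agent.H76.SW

/-- The structure without the bag `z`. -/
noncomputable def del {P : Type} {κ : ℕ} (F : FS P κ) (z : F.N) : FS P κ := by
  classical
  letI := F.fin
  exact {
    N := {x : F.N // x ≠ z}
    fin := inferInstance
    par := fun x => (F.par x.1).bind fun y => if h : y = z then none else some ⟨y, h⟩
    rk := fun x => F.rk x.1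
    hrk := fun x y h => by
      obtain ⟨w, hw, h2⟩ := Option.bind_eq_some_iff.1 h
      by_cases hwz : w = z
      · rw [dif_pos hwz] at h2; exact absurd h2 (by simp)
      · rw [dif_neg hwz] at h2
        have h3 : (⟨w, hwz⟩ : {x : F.N // x ≠ z}) = y := Option.some.inj h2
        rw [← h3]
        exact F.hrk _ _ hw
    f := fun x => F.f x.1
    lk := fun x => F.lk x.1
    inj := fun x => F.inj x.1
    nf := fun x => F.nf x.1 }

theorem del_par {P : Type} {κ : ℕ} (F : FS P κ) (z x y : F.N) (hx : x ≠ z) (hy : y ≠ z)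
    (h : F.par x = some y) : (del F z).par (⟨x, hx⟩ : {x : F.N // x ≠ z}) =
      some (⟨y, hy⟩ : {x : F.N // x ≠ z}) := by
  classical
  have h1 : ((F.par x).bind fun y => if h : y = z then none else
      some (⟨y, h⟩ : {x : F.N // x ≠ z})) = some (⟨y, hy⟩ : {x : F.N // x ≠ z}) := by
    rw [h, Option.bind_some, dif_neg hy]
  exact h1

theorem del_size {P : Type} {κ : ℕ} (F : FS P κ) (z : F.N) : (del F z).size < F.size := by
  classical
  let _ := F.fin
  show @Fintype.card {x : F.N // x ≠ z} _ < Fintype.card F.N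
  exact Fintype.card_subtype_lt (x := z) (by simp)

/-- The neighbours of `z`. -/
def Nb {P : Type} {κ : ℕ} (F : FS P κ) (z y : F.N) : Prop :=
  F.par z = some y ∨ F.par y = some z

theorem del_sim {P Q J : Type} {κ : ℕ} (ρ : P × Q → P × Q → Prop)
    (hρ : ∀ x y z, ρ x y → ρ y z → ρ x z)
    (g : J → Fin κ → P) (ja jb : J) (la lb : Fin κ) (F : FS P κ)
    (mk : J → F.N) (hg : ∀ j, F.f (mk j) = g j)
    (hG : ∀ j j' l l' s s', ρ (g j l, s) (g j' l', s') →
      F.Gen ρ (mk ja, la) (mk jb, lb) ((mk j, l), s) ((mk j', l'), s'))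
    (z : F.N) (hz : ∀ j, mk j ≠ z) (hN : ∀ y y', Nb F z y → Nb F z y' → y = y') :
    ∃ F' : FS P κ, Sim ρ g ja jb la lb F' ∧ F'.size < F.size := by
  classical
  refine ⟨del F z, ⟨fun j => (⟨mk j, hz j⟩ : {x : F.N // x ≠ z}), fun j => hg j, ?_⟩, del_size F z⟩
  intro j j' l l' s s' h
  have hwalk := hG j j' l l' s s' h
  have key : ∀ v : (F.N × Fin κ) × Q,
      F.Gen ρ (mk ja, la) (mk jb, lb) ((mk j, l), s) v →
      (∀ hv : v.1.1 ≠ z, (del F z).Gen ρ
        ((⟨mk ja, hz ja⟩ : {x : F.N // x ≠ z}), la) ((⟨mk jb, hz jb⟩ : {x : F.N // x ≠ z}), lb)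
        (((⟨mk j, hz j⟩ : {x : F.N // x ≠ z}), l), s)
        (((⟨v.1.1, hv⟩ : {x : F.N // x ≠ z}), v.1.2), v.2)) ∧
      (v.1.1 = z → ∃ (y : F.N) (hy : y ≠ z) (l1 : Fin κ) (s1 : Q), (del F z).Gen ρ
        ((⟨mk ja, hz ja⟩ : {x : F.N // x ≠ z}), la) ((⟨mk jb, hz jb⟩ : {x : F.N // x ≠ z}), lb)
        (((⟨mk j, hz j⟩ : {x : F.N // x ≠ z}), l), s)
        (((⟨y, hy⟩ : {x : F.N // x ≠ z}), l1), s1) ∧
        ρ (F.f y l1, s1) (F.f z v.1.2, v.2) ∧ Nb F z y) := by
    intro v hv
    induction hv with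
    | refl => exact ⟨fun _ => ReflTransGen.refl, fun h => absurd h (hz j)⟩
    | tail _ hst ih =>
      cases hst with
      | node x l l' s s' h =>
        refine ⟨fun hv => ?_, fun hv => ?_⟩
        · exact (ih.1 hv).tail (FS.St.node (F := del F z) (⟨x, hv⟩ : {x : F.N // x ≠ z}) l l' s s' h)
        · obtain ⟨y, hy, l1, s1, h1, h2, h3⟩ := ih.2 hv
          have hv' : x = z := hv
          subst hv'
          exact ⟨y, hy, l1, s1, h1, hρ _ _ _ h2 h, h3⟩
      | up x y l l' s s' hp hl h =>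
        by_cases hx : x = z
        · subst hx
          have hyx : y ≠ x := by
            rintro rfl
            exact lt_irrefl _ (F.hrk _ _ hp)
          refine ⟨fun hv => ?_, fun hv => absurd hv hyx⟩
          obtain ⟨y', hy', l1, s1, h1, h2, h3⟩ := ih.2 rfl
          obtain rfl : y' = y := hN _ _ h3 (Or.inl hp)
          exact h1.tail (FS.St.node (F := del F x) (⟨y', hy'⟩ : {w : F.N // w ≠ x}) l1 l' s1 s'
            (hρ _ _ _ h2 h))
        · refine ⟨fun hv => ?_, fun hv => ?_⟩
          · exact (ih.1 hx).tail (FS.St.up (F := del F z) (⟨x, hx⟩ : {x : F.N // x ≠ z})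
              (⟨y, hv⟩ : {x : F.N // x ≠ z}) l l' s s' (del_par F z x y hx hv hp) hl h)
          · have hv' : y = z := hv
            subst hv'
            exact ⟨x, hx, l, s, ih.1 hx, h, Or.inr hp⟩
      | down x y l l' s s' hp hl h =>
        by_cases hy : y = z
        · subst hy
          have hxy : x ≠ y := by
            rintro rfl
            exact lt_irrefl _ (F.hrk _ _ hp)
          refine ⟨fun hv => ?_, fun hv => absurd hv hxy⟩
          obtain ⟨y', hy', l1, s1, h1, h2, h3⟩ := ih.2 rfl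
          obtain rfl : y' = x := hN _ _ h3 (Or.inr hp)
          exact h1.tail (FS.St.node (F := del F y) (⟨y', hy'⟩ : {w : F.N // w ≠ y}) l1 l s1 s'
            (hρ _ _ _ h2 h))
        · refine ⟨fun hv => ?_, fun hv => ?_⟩
          · exact (ih.1 hy).tail (FS.St.down (F := del F z) (⟨x, hv⟩ : {x : F.N // x ≠ z})
              (⟨y, hy⟩ : {x : F.N // x ≠ z}) l l' s s' (del_par F z x y hv hy hp) hl h)
          · have hv' : x = z := hv
            subst hv'
            exact ⟨y, hy, l', s, ih.1 hy, h, Or.inl hp⟩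
      | ab s s' h =>
        exact ⟨fun hv => (ih.1 (hz ja)).tail (FS.St.ab (F := del F z) s s' h),
          fun hv => absurd hv (hz jb)⟩
      | ba s s' h =>
        exact ⟨fun hv => (ih.1 (hz jb)).tail (FS.St.ba (F := del F z) s s' h),
          fun hv => absurd hv (hz ja)⟩
  exact (key _ hwalk).1 (hz j')

theorem pf_F1 : U_f1_leaf := by
  intro P Q J κ ρ hρ hρr g ja jb la lb F mk hg hG z hz hc
  refine del_sim ρ hρ g ja jb la lb F mk hg hG z hz ?_
  rintro y y' (h | h) (h' | h')
  · exact Option.some.inj (h.symm.trans h')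
  · exact absurd h' (hc _)
  · exact absurd h (hc _)
  · exact absurd h (hc _)

theorem pf_F2 : U_f2_root := by
  intro P Q J κ ρ hρ hρr g ja jb la lb F mk hg hG z c hz hzr hc
  refine del_sim ρ hρ g ja jb la lb F mk hg hG z hz ?_
  rintro y y' (h | h) (h' | h')
  · rw [hzr] at h; exact absurd h (by simp)
  · rw [hzr] at h; exact absurd h (by simp)
  · rw [hzr] at h'; exact absurd h' (by simp)
  · rw [(hc _).1 h, (hc _).1 h']

end Pool.Agent.H90.SW
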