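import Pool.Agent.H20.SW.U0

/-!
Simple Regular Queries are unions of fact queries: the modules U1 and U2.
-/

namespace Pool.Agent.H90.SW

open Relation Pool.Agent.H76.SW

/-- Embedding of the states in `Fin s`. -/
theorem pad (h3 : U_u0_pad) {A Q : Type} [Fintype Q] {n n' r s : ℕ} (hn : 0 < n) (hnn : n ≤ n')
    (hs : Fintype.card Q ≤ s) (tr : Q → A × Bool → Q → Prop)
    (U : Set (Set ((Fin n × Q) × (Fin n × Q)) × (Fin r → Fin n))) :
    ∃ (tr' : Fin s → A × Bool → Fin s → Prop)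
      (U' : Set (Set ((Fin n' × Fin s) × (Fin n' × Fin s)) × (Fin r → Fin n'))),
      ∀ (V : Type) (E : V → A → V → Prop) (z : Fin r → V), USat tr U E z ↔ USat tr' U' E z := by
  obtain ⟨j⟩ : Nonempty (Q ↪ Fin s) :=
    Function.Embedding.nonempty_of_card_le (by simpa using hs)
  refine ⟨fun x l y => ∃ a b, x = j a ∧ y = j b ∧ tr a l b, ?_⟩
  refine h3 j j.injective hn hnn tr _ (fun a l b h => ⟨a, b, rfl, rfl, h⟩) ?_ U
  rintro a l x ⟨a', b, h, h', h''⟩
  obtain rfl := j.injective h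
  exact ⟨b, h', h''⟩

/-- The union of a family of automata. -/
def jt {A J : Type} {sz : J → ℕ} (tr : (j : J) → Fin (sz j) → A × Bool → Fin (sz j) → Prop) :
    (Σ j, Fin (sz j)) → A × Bool → (Σ j, Fin (sz j)) → Prop :=
  fun x l y => ∃ j s t, x = ⟨j, s⟩ ∧ y = ⟨j, t⟩ ∧ tr j s l t

theorem union_aux (h3 : U_u0_pad) {A J : Type} [Fintype J] {r s : ℕ} (sz : J → ℕ)
    (tr : (j : J) → Fin (sz j) → A × Bool → Fin (sz j) → Prop)
    (U : (j : J) → Set (Set ((Fin (2 ^ sz j) × Fin (sz j)) × (Fin (2 ^ sz j) × Fin (sz j))) ×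
      (Fin r → Fin (2 ^ sz j)))) (hs : ∑ j, sz j ≤ s) :
    ∃ (tr' : Fin s → A × Bool → Fin s → Prop)
      (U' : Set (Set ((Fin (2 ^ s) × Fin s) × (Fin (2 ^ s) × Fin s)) × (Fin r → Fin (2 ^ s)))),
      ∀ (V : Type) (E : V → A → V → Prop) (z : Fin r → V),
        (∃ j, USat (tr j) (U j) E z) ↔ USat tr' U' E z := by
  have hj : ∀ j, ∃ U' : Set (Set ((Fin (2 ^ s) × (Σ j, Fin (sz j))) ×
      (Fin (2 ^ s) × (Σ j, Fin (sz j)))) × (Fin r → Fin (2 ^ s))),
      ∀ (V : Type) (E : V → A → V → Prop) (z : Fin r → V),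
        USat (tr j) (U j) E z ↔ USat (jt tr) U' E z := by
    intro j
    have hle : sz j ≤ s := le_trans (Finset.single_le_sum (f := sz) (fun i _ => Nat.zero_le _)
      (Finset.mem_univ j)) hs
    refine h3 (fun x => (⟨j, x⟩ : Σ j, Fin (sz j))) (fun x y h => by simpa using h)
      (Nat.two_pow_pos _) (Nat.pow_le_pow_right (by norm_num) hle) (tr j) (jt tr)
      (fun a l b h => ⟨j, a, b, rfl, rfl, h⟩) ?_ (U j)
    rintro a l x ⟨j', a', b, h, h', h''⟩
    obtain ⟨rfl, h⟩ := Sigma.mk.inj_iff.1 h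
    obtain rfl := eq_of_heq h
    exact ⟨b, h', h''⟩
  choose U1 hU1 using hj
  obtain ⟨tr', U', h'⟩ := pad (s := s) h3 (Nat.two_pow_pos s) le_rfl (by simpa using hs) (jt tr)
    (⋃ j, U1 j)
  refine ⟨tr', U', fun V E z => ?_⟩
  rw [← h']
  constructor
  · rintro ⟨j, hj⟩
    obtain ⟨f, hf, hf2⟩ := (hU1 j V E z).1 hj
    exact ⟨f, Set.mem_iUnion.2 ⟨j, hf⟩, hf2⟩
  · rintro ⟨f, hf, hf2⟩
    obtain ⟨j, hj⟩ := Set.mem_iUnion.1 hf
    exact ⟨j, (hU1 j V E z).2 ⟨f, hj, hf2⟩⟩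

/-- The states of a body. -/
abbrev QB {A : Type} {c : ℕ} (b : Body A c) (sz : Fin c → ℕ) : Type :=
  (Σ i, Fin (b.st i)) ⊕ (Σ j, Fin (sz j))

def tb {A : Type} {c : ℕ} (b : Body A c) {sz : Fin c → ℕ}
    (tr : (j : Fin c) → Fin (sz j) → A × Bool → Fin (sz j) → Prop) :
    QB b sz → A × Bool → QB b sz → Prop
  | .inl x, l, .inl y => joint b.aut x l y
  | .inr x, l, .inr y => jt tr x l y
  | .inl _, _, .inr _ => False
  | .inr _, _, .inl _ => False

theorem path_one {Λ V : Type} (F : V → Λ → V → Prop) (u v : V) (l : Λ) :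
    Path F u [(l, true)] v ↔ F u l v := by
  constructor
  · intro h
    cases h with
    | cons _ v' _ _ _ h1 h2 =>
      cases h2
      simpa [Step] using h1
  · intro h
    exact Path.cons u v v (l, true) [] (by simpa [Step] using h) (Path.nil v)

theorem atom_aux (h2 : U_q1_joint) (h3 : U_u0_pad) {A : Type} {c : ℕ} (b : Body A c)
    (hb : b.Simple) (sub : Fin c → RQ A)
    (tr : (j : Fin c) → Fin (sub j).size → A × Bool → Fin (sub j).size → Prop)
    (U : (j : Fin c) → Set (Set ((Fin (2 ^ (sub j).size) × Fin (sub j).size) ×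
      (Fin (2 ^ (sub j).size) × Fin (sub j).size)) × (Fin 2 → Fin (2 ^ (sub j).size))))
    (hU : ∀ j, ∀ (V : Type) (E : V → A → V → Prop) (u v : V),
      (sub j).Sat E u v ↔ USat (tr j) (U j) E ![u, v]) (i : Fin b.m) :
    ∃ U' : Set (Set ((Fin (2 ^ (∑ j, (sub j).size + 1)) × QB b (fun j => (sub j).size)) ×
      (Fin (2 ^ (∑ j, (sub j).size + 1)) × QB b (fun j => (sub j).size))) ×
      (Fin 2 → Fin (2 ^ (∑ j, (sub j).size + 1)))),
      ∀ (V : Type) (E : V → A → V → Prop) (u v : V),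
        (∃ w ∈ (b.aut i).accepts, Path (ext E (fun j => (sub j).Sat E)) u w v) ↔
          USat (tb b tr) U' E ![u, v] := by
  rcases hb i with hL | ⟨j, hj⟩
  · have hM : 1 < 2 ^ (∑ j, (sub j).size + 1) := Nat.one_lt_pow (Nat.succ_ne_zero _) (by norm_num)
    have hM0 : 0 < 2 ^ (∑ j, (sub j).size + 1) := Nat.two_pow_pos _
    refine ⟨{f | ∃ s ∈ (b.aut i).start, ∃ s' ∈ (b.aut i).accept,
      f = ({((⟨0, hM0⟩, Sum.inl ⟨i, s⟩), (⟨1, hM⟩, Sum.inl ⟨i, s'⟩))}, ![⟨0, hM0⟩, ⟨1, hM⟩])},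
      fun V E u v => ?_⟩
    have hq := h2 b.aut E i (fun j => (sub j).Sat E) hL u v
    rw [hq]
    have hemb : ∀ (x y : V) (s t : Σ i, Fin (b.st i)),
        Reach E (joint b.aut) (x, s) (y, t) ↔ Reach E (tb b tr) (x, Sum.inl s) (y, Sum.inl t) := by
      intro x y s t
      refine Pool.Agent.H20.SW.u0_iff Sum.inl Sum.inl_injective (joint b.aut) (tb b tr)
        (fun s l t h => h) ?_ E x y s t
      rintro s l (t | t) h
      · exact ⟨t, rfl, h⟩
      · exact absurd h id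
    constructor
    · rintro ⟨s, hs, s', hs', hr⟩
      refine ⟨_, ⟨s, hs, s', hs', rfl⟩, fun k => if k.1 = 0 then u else v, ?_, ?_⟩
      · intro e he
        rw [Set.mem_singleton_iff] at he
        subst he
        exact (hemb _ _ _ _).1 hr
      · intro k
        fin_cases k <;> simp
    · rintro ⟨_, ⟨s, hs, s', hs', rfl⟩, μ, h1, h4⟩
      refine ⟨s, hs, s', hs', (hemb _ _ _ _).2 ?_⟩
      have h5 := h1 _ (Set.mem_singleton _)
      have h6 := h4 0
      have h7 := h4 1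
      simp only [Matrix.cons_val_zero, Matrix.cons_val_one] at h6 h7
      rw [← h6, ← h7]
      exact h5
  · have hle : (sub j).size ≤ ∑ j, (sub j).size + 1 :=
      le_trans (Finset.single_le_sum (f := fun j => (sub j).size) (fun i _ => Nat.zero_le _)
        (Finset.mem_univ j)) (Nat.le_succ _)
    obtain ⟨U', hU'⟩ := h3 (fun x => (Sum.inr ⟨j, x⟩ : QB b (fun j => (sub j).size)))
      (fun x y h => by simpa using h)
      (Nat.two_pow_pos _) (Nat.pow_le_pow_right (by norm_num) hle) (tr j) (tb b tr)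
      (fun a l d h => ⟨j, a, d, rfl, rfl, h⟩) (by
        rintro a l (x | x) h
        · exact absurd h id
        · obtain ⟨j', a', d, h, h', h''⟩ := h
          obtain ⟨rfl, h⟩ := Sigma.mk.inj_iff.1 h
          obtain rfl := eq_of_heq h
          exact ⟨d, by rw [h'], h''⟩) (U j)
    refine ⟨U', fun V E u v => ?_⟩
    rw [← hU', ← hU, hj]
    constructor
    · rintro ⟨w, hw, hp⟩
      have hw' : w = [(Sum.inr j, true)] := hw
      subst hw'
      exact (path_one _ _ _ _).1 hp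
    · intro h
      exact ⟨_, rfl, (path_one (ext E (fun j => (sub j).Sat E)) u v (Sum.inr j)).2 h⟩

theorem cq_aux (h1 : U_q0_eq) (h2 : U_q1_joint) (h3 : U_u0_pad) {A : Type} {c r : ℕ}
    (b : Body A c) (hb : b.Simple) (sub : Fin c → RQ A)
    (hsub : ∀ j, ∃ (tr : Fin (sub j).size → A × Bool → Fin (sub j).size → Prop)
      (U : Set (Set ((Fin (2 ^ (sub j).size) × Fin (sub j).size) ×
        (Fin (2 ^ (sub j).size) × Fin (sub j).size)) × (Fin 2 → Fin (2 ^ (sub j).size)))),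
      ∀ (V : Type) (E : V → A → V → Prop) (u v : V), (sub j).Sat E u v ↔ USat tr U E ![u, v])
    (out : Fin r → Fin b.n) (hn : 0 < b.n) (s : ℕ) (hs : 1 + b.size + ∑ j, (sub j).size ≤ s) :
    ∃ (tr : Fin s → A × Bool → Fin s → Prop)
      (U : Set (Set ((Fin (2 ^ s) × Fin s) × (Fin (2 ^ s) × Fin s)) × (Fin r → Fin (2 ^ s)))),
      ∀ (V : Type) (E : V → A → V → Prop) (z : Fin r → V),
        (∃ μ : Fin b.n → V, b.Holds E (fun j => (sub j).Sat E) μ ∧ ∀ i, μ (out i) = z i) ↔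
          USat tr U E z := by
  choose tr U hU using hsub
  have hat0 := atom_aux h2 h3 b hb sub tr U hU
  set M : ℕ := 2 ^ (∑ j, (sub j).size + 1) with hM
  choose U1 hU1 using hat0
  let Q := QB b (fun j => (sub j).size)
  let W := Fin b.n ⊕ (Fin b.m × Fin M)
  have hWne : Nonempty W := ⟨Sum.inl ⟨0, hn⟩⟩
  have hbs : b.size = c + b.n + b.m + ∑ i, b.st i := rfl
  have hcardW : Fintype.card W ≤ 2 ^ s := by
    have : Fintype.card W = b.n + b.m * M := by simp [W]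
    rw [this]
    have hM1 : 1 ≤ M := Nat.one_le_two_pow
    calc b.n + b.m * M ≤ b.n * M + b.m * M := by nlinarith
      _ = (b.n + b.m) * M := by ring
      _ ≤ 2 ^ (b.n + b.m) * M := Nat.mul_le_mul_right _ (Nat.lt_two_pow_self).le
      _ = 2 ^ (b.n + b.m + (∑ j, (sub j).size + 1)) := by rw [hM, ← pow_add]
      _ ≤ 2 ^ s := Nat.pow_le_pow_right (by norm_num) (by omega)
  have hcardQ : Fintype.card Q ≤ s := by
    have : Fintype.card Q = ∑ i, b.st i + ∑ j, (sub j).size := by simp [Q, QB]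
    omega
  have hch : ∀ f : Fin b.m → Set ((Fin M × Q) × (Fin M × Q)) × (Fin 2 → Fin M),
      ∃ g : Set ((Fin (2 ^ s) × Q) × (Fin (2 ^ s) × Q)) × (Fin r → Fin (2 ^ s)),
      ∀ (V : Type) (E : V → A → V → Prop) (z : Fin r → V),
        (∃ μ : W → V, (∀ i, ∀ y ∈ (f i).1, Reach E (tb b tr) (μ (Sum.inr (i, y.1.1)), y.1.2)
            (μ (Sum.inr (i, y.2.1)), y.2.2)) ∧
          (∀ i, μ (Sum.inl (b.src i)) = μ (Sum.inr (i, (f i).2 0)) ∧
            μ (Sum.inl (b.tgt i)) = μ (Sum.inr (i, (f i).2 1))) ∧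
          ∀ i, μ (Sum.inl (out i)) = z i) ↔
        ∃ μ : Fin (2 ^ s) → V, (∀ e ∈ g.1, Reach E (tb b tr) (μ e.1.1, e.1.2) (μ e.2.1, e.2.2)) ∧
          ∀ i, μ (g.2 i) = z i := by
    intro f
    obtain ⟨F', π, h⟩ := h1 (W := W) (I := Fin r) (tb b tr)
      {x : (W × Q) × (W × Q) | ∃ i, ∃ y ∈ (f i).1, x = ((Sum.inr (i, y.1.1), y.1.2),
        (Sum.inr (i, y.2.1), y.2.2))}
      (fun x y => ∃ i, (x = Sum.inl (b.src i) ∧ y = Sum.inr (i, (f i).2 0)) ∨
        (x = Sum.inl (b.tgt i) ∧ y = Sum.inr (i, (f i).2 1)))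
      (fun i => Sum.inl (out i)) (2 ^ s) hcardW
    refine ⟨(F', fun i => π (Sum.inl (out i))), fun V E z => ?_⟩
    rw [← h V E z]
    refine exists_congr fun μ => and_congr ⟨?_, ?_⟩ (and_congr ⟨?_, ?_⟩ Iff.rfl)
    · rintro h e ⟨i, y, hy, rfl⟩
      exact h i y hy
    · intro h i y hy
      exact h _ ⟨i, y, hy, rfl⟩
    · rintro h x y ⟨i, ⟨rfl, rfl⟩ | ⟨rfl, rfl⟩⟩
      · exact (h i).1
      · exact (h i).2
    · intro h i
      exact ⟨h _ _ ⟨i, Or.inl ⟨rfl, rfl⟩⟩, h _ _ ⟨i, Or.inr ⟨rfl, rfl⟩⟩⟩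
  choose g hg using hch
  obtain ⟨tr', U', h'⟩ := pad (s := s) h3 (Nat.two_pow_pos s) le_rfl hcardQ (tb b tr)
    {e | ∃ f : Fin b.m → Set ((Fin M × Q) × (Fin M × Q)) × (Fin 2 → Fin M),
      (∀ i, f i ∈ U1 i) ∧ e = g f}
  refine ⟨tr', U', fun V E z => ?_⟩
  rw [← h']
  constructor
  · rintro ⟨μ, hμ, hz⟩
    have hat : ∀ i, ∃ f ∈ U1 i, ∃ ν : Fin M → V,
        (∀ e ∈ f.1, Reach E (tb b tr) (ν e.1.1, e.1.2) (ν e.2.1, e.2.2)) ∧
        ∀ k, ν (f.2 k) = ![μ (b.src i), μ (b.tgt i)] k := fun i =>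
      (hU1 i V E _ _).1 (hμ i)
    choose f hf ν hν hν2 using hat
    refine ⟨g f, ⟨f, hf, rfl⟩, (hg f V E z).1 ⟨Sum.elim μ fun x => ν x.1 x.2, ?_, ?_, hz⟩⟩
    · intro i y hy
      exact hν i y hy
    · intro i
      exact ⟨(hν2 i 0).symm, (hν2 i 1).symm⟩
  · rintro ⟨_, ⟨f, hf, rfl⟩, hμ⟩
    obtain ⟨μ, ha, hb', hc⟩ := (hg f V E z).2 hμ
    refine ⟨fun x => μ (Sum.inl x), fun i => (hU1 i V E _ _).2 ?_, hc⟩
    refine ⟨f i, hf i, fun x => μ (Sum.inr (i, x)), ha i, ?_⟩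
    intro k
    fin_cases k
    · exact (hb' i).1.symm
    · exact (hb' i).2.symm

theorem pf_U1 (h1 : U_q0_eq) (h2 : U_q1_joint) (h3 : U_u0_pad) : U_u1_simple := by
  intro A ω
  induction ω with
  | cq c b sub p q ih =>
    intro hs
    obtain ⟨hb, hsub⟩ := hs
    obtain ⟨tr, U, hU⟩ := cq_aux h1 h2 h3 b hb sub (fun j => ih j (hsub j)) ![p, q]
      (lt_of_le_of_lt (Nat.zero_le _) p.2) (RQ.cq c b sub p q).size le_rfl
    refine ⟨tr, U, fun V E u v => ?_⟩
    rw [← hU]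
    show (∃ μ : Fin b.n → V, b.Holds E (fun j => (sub j).Sat E) μ ∧ μ p = u ∧ μ q = v) ↔ _
    refine exists_congr fun μ => and_congr Iff.rfl ?_
    rw [Fin.forall_fin_two]
    rfl
  | union u sub ih =>
    intro hs
    have hs' : ∀ j, (sub j).Simple := hs
    choose tr U hU using fun j => ih j (hs' j)
    obtain ⟨tr', U', h'⟩ := union_aux (s := (RQ.union u sub).size) h3
      (fun j => (sub j).size) tr U (by
        show ∑ j, (sub j).size ≤ 1 + u + ∑ j, (sub j).size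
        omega)
    refine ⟨tr', U', fun V E x y => ?_⟩
    rw [← h']
    exact exists_congr fun j => hU j V E x y

theorem crq_aux (h1 : U_q0_eq) (h2 : U_q1_joint) (h3 : U_u0_pad) (h4 : U_u1_simple) {A : Type}
    {r : ℕ} (t : CRQ A r) (hs : t.Simple) :
    ∃ (tr : Fin t.size → A × Bool → Fin t.size → Prop)
      (U : Set (Set ((Fin (2 ^ t.size) × Fin t.size) × (Fin (2 ^ t.size) × Fin t.size)) ×
        (Fin r → Fin (2 ^ t.size)))),
      ∀ (V : Type) [Nonempty V] (E : V → A → V → Prop) (z : Fin r → V),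
        t.Sat E z ↔ USat tr U E z := by
  rcases Nat.eq_zero_or_pos t.b.n with h0 | hn
  · have hr : ∀ i : Fin r, False := fun i => absurd (t.out i).2 (by omega)
    have hm : ∀ i : Fin t.b.m, False := fun i => absurd (t.b.src i).2 (by omega)
    refine ⟨fun _ _ _ => False, {(∅, fun i => (hr i).elim)}, fun V _ E z => ?_⟩
    constructor
    · intro _
      obtain ⟨v⟩ := ‹Nonempty V›
      exact ⟨_, rfl, fun _ => v, fun e he => absurd he (Set.notMem_empty _), fun i => (hr i).elim⟩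
    · intro _
      exact ⟨fun x => absurd x.2 (by omega), fun i => (hm i).elim, fun i => (hr i).elim⟩
  · obtain ⟨tr, U, hU⟩ := cq_aux h1 h2 h3 t.b hs.1 t.sub (fun j => h4 (t.sub j) (hs.2 j)) t.out hn
      t.size le_rfl
    exact ⟨tr, U, fun V _ E z => hU V E z⟩

theorem pf_U2 (h1 : U_q0_eq) (h2 : U_q1_joint) (h3 : U_u0_pad) (h4 : U_u1_simple) :
    U_u2_simple := by
  intro A r Γ hs
  choose tr U hU using fun j : Fin Γ.length =>
    crq_aux h1 h2 h3 h4 (Γ.get j) (hs _ (List.get_mem Γ j))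
  obtain ⟨tr', U', h'⟩ := union_aux (s := Query.size Γ) h3 (fun j => (Γ.get j).size) tr U (by
    show ∑ j : Fin Γ.length, (Γ.get j).size ≤ (Γ.map CRQ.size).sum
    have := Fin.sum_univ_fun_getElem Γ CRQ.size
    rw [← this]
    rfl)
  refine ⟨tr', U', fun V _ E z => ?_⟩
  rw [← h']
  constructor
  · rintro ⟨t, ht, hz⟩
    obtain ⟨j, hj⟩ := List.get_of_mem ht
    exact ⟨j, (hU j V E z).1 (by rw [hj]; exact hz)⟩
  · rintro ⟨j, hj⟩
    exact ⟨Γ.get j, List.get_mem Γ j, (hU j V E z).2 hj⟩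

end Pool.Agent.H90.SW
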